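import Pool.Agent.K3h44.SQ.Stm2
import Pool.Agent.H437R2.Man.MWSel

/-!
# Finiteness of a Selmer group modulo squares (brick SEL2)

From the starting file `Pool.Agent.H437R2.Man.MWSel`.
-/

set_option autoImplicit false

open IsDedekindDomain NumberField
open scoped nonZeroDivisors

namespace Pool.Agent.K3h20.SQ

open Pool.Agent.K3h44.SQ

/-- order of vanishing of a nonzero integer in terms of `normalizedFactors`. -/
lemma val_int {K : Type} [Field K] [NumberField K] (v : HeightOneSpectrum (𝓞 K)) (r : 𝓞 K)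
    (hr : r ≠ 0) : v.valuation K (r : K) = WithZero.exp
      (-((UniqueFactorizationMonoid.normalizedFactors (Ideal.span {r})).count v.asIdeal : ℤ)) := by
  classical
  have h0 : (r : K) = algebraMap (𝓞 K) K r := rfl
  rw [h0, v.valuation_of_algebraMap, v.intValuation_if_neg hr,
    Ideal.count_associates_factors_eq (by simpa using hr) v.isPrime v.ne_bot]

theorem t_SEL2 : S_SEL2 := by
  classical
  intro K _ _ M hM
  have hM0 : (M : 𝓞 K) ≠ 0 := by exact_mod_cast hM
  have hfin : {v : HeightOneSpectrum (𝓞 K) | (M : 𝓞 K) ∈ v.asIdeal}.Finite := by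
    refine (Ideal.finite_factors (I := Ideal.span {(M : 𝓞 K)}) (by simpa using hM0)).subset ?_
    intro v hv
    exact Ideal.dvd_span_singleton.2 hv
  obtain ⟨T, hT0, hT⟩ := Pool.Agent.H437R2.Man.MW.sel_int
    {v : HeightOneSpectrum (𝓞 K) | (M : 𝓞 K) ∈ v.asIdeal} hfin
  refine ⟨T.image (fun t : 𝓞 K => (t : K)), ?_, ?_⟩
  · intro η hη
    obtain ⟨t, ht, rfl⟩ := Finset.mem_image.1 hη
    have := hT0 t ht
    exact_mod_cast this
  · intro α hα hv
    obtain ⟨t, ht, x, y, hx, hy, hxy⟩ := hT α hα (fun v hvS => by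
      obtain ⟨n, hn⟩ := hv v hvS
      rw [val_int v α hα] at hn
      have h1 := WithZero.exp_injective hn
      rw [Nat.even_iff]
      omega)
    have hx0 : (x : K) ≠ 0 := by exact_mod_cast hx
    have hxyK : (x : K) ^ 2 * (α : K) = (t : K) * (y : K) ^ 2 := by
      exact_mod_cast congrArg (fun z : 𝓞 K => (z : K)) hxy
    refine ⟨_, Finset.mem_image_of_mem _ ht, (y : K) / (x : K), ?_⟩
    change (α : K) = (t : K) * ((y : K) / (x : K)) ^ 2
    field_simp
    linear_combination hxyK

end Pool.Agent.K3h20.SQ
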